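import Mathlib
import Pool.Agent.Lib.helper18.Gr3

set_option autoImplicit false

open Classical Matrix SimpleGraph

namespace Pool.Agent.Results.MP_87d29b_co.Prism

/-- Adjacency eigenvalues with multiplicity. -/
noncomputable def eig {n : ℕ} (G : SimpleGraph (Fin n)) : Multiset ℝ :=
  (G.adjMatrix ℝ).charpoly.roots

/-- `φ(t) = ∏ (t - s)` over the distinct eigenvalues `s ≠ t`. -/
noncomputable def phi (E : Multiset ℝ) (t : ℝ) : ℝ := ∏ s ∈ E.toFinset.erase t, (t - s)

/-- The value `p_d(k)` of the top predistance polynomial at the largest eigenvalue `k`. -/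
noncomputable def pTop (n : ℕ) (E : Multiset ℝ) (k : ℝ) : ℝ :=
  n * (∑ t ∈ E.toFinset, phi E k ^ 2 / (E.count t * phi E t ^ 2))⁻¹

def WalkRegular {n : ℕ} (G : SimpleGraph (Fin n)) : Prop :=
  ∀ (l : ℕ) (x y : Fin n),
    {p : G.Walk x x | p.length = l}.ncard = {p : G.Walk y y | p.length = l}.ncard

def f (a b : Fin 6) : Bool := a - b == 2 || a - b == 3 || a - b == 4

def G0 : SimpleGraph (Fin 6) := H18Gr.mk f (by decide +kernel) (by decide +kernel)

def dt (a b : Fin 6) : ℕ := if a = b then 0 else if f a b then 1 else 2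

lemma ds : G0.Preconnected ∧ ∀ u w, G0.dist u w = dt u w := by
  refine H18Gr.dist_table G0 dt (by decide +kernel) ?_ ?_ <;> simp only [G0, H18Gr.mk_adj] <;>
    decide +kernel

lemma conn : G0.Connected := ⟨ds.1⟩

lemma dm : G0.diam = 2 :=
  H18Gr.diam_eq G0 conn 2 (by simp only [ds.2]; decide +kernel) 0 1 (by rw [ds.2]; rfl)

lemma eg : eig G0 = {3, 1, 0, 0, -2, -2} := by
  unfold eig G0
  rw [H18Gr.adjMatrix_mk, H18Gr.roots_cert (H18Gr.zm f)
    !![1, -1, -1, -1, -1, 1; 1, 1, 1, 0, -1, 0; 1, -1, 0, 1, 0, -1; 1, 1, -1, -1, 1, -1;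
      1, -1, 1, 0, 1, 0; 1, 1, 0, 1, 0, 1]
    !![1, 1, 1, 1, 1, 1; -1, 1, -1, 1, -1, 1; -1, 2, -1, -1, 2, -1; -1, -1, 2, -1, -1, 2;
      -1, -2, -1, 1, 2, 1; 1, -1, -2, -1, 1, 2] ![3, 1, 0, 0, -2, -2] 6 (by norm_num)
    (by decide +kernel) (by decide +kernel)]
  have : Finset.univ.val.map (![3, 1, 0, 0, -2, -2] : Fin 6 → ℤ) = {3, 1, 0, 0, -2, -2} := by
    decide +kernel
  rw [this]
  simp

lemma wr : WalkRegular G0 := by
  have key : ∀ (l : ℕ) (t a b : Fin 6), (G0.adjMatrix ℕ ^ l) (a + t) (b + t) =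
      (G0.adjMatrix ℕ ^ l) a b := by
    intro l t
    induction l with
    | zero => intro a b; simp [one_apply]
    | succ l ih =>
      intro a b
      rw [pow_succ, mul_apply, mul_apply, ← Equiv.sum_comp (Equiv.addRight t)]
      refine Finset.sum_congr rfl fun c _ => ?_
      rw [Equiv.coe_addRight, ih]
      simp [adjMatrix_apply, G0, f]
  intro l x y
  have h1 := G0.adjMatrix_pow_apply_eq_card_walk (α := ℕ) l x x
  have h2 := G0.adjMatrix_pow_apply_eq_card_walk (α := ℕ) l y y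
  have h3 := key l (y - x) x x
  rw [add_sub_cancel, h1, h2] at h3
  simp only [Nat.cast_id] at h3
  rw [← Nat.card_coe_set_eq, ← Nat.card_coe_set_eq, Nat.card_eq_fintype_card,
    Nat.card_eq_fintype_card, h3]

theorem result : ∃ (n k : ℕ) (G : SimpleGraph (Fin n)), G.Connected ∧ WalkRegular G ∧
    (∀ v, (G.neighborSet v).ncard = k) ∧ G.diam + 1 < (eig G).toFinset.card ∧
    ∀ x, pTop n (eig G) k < ({y | G.dist x y = G.diam} : Set (Fin n)).ncard := by
  have tf : (eig G0).toFinset = {3, 1, 0, -2} := by rw [eg]; ext t; simp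
  refine ⟨6, 3, G0, conn, wr, fun v => ?_, ?_, fun x => ?_⟩
  · unfold G0
    rw [H18Gr.ncard_nbr]
    revert v; decide +kernel
  · rw [dm, tf]; norm_num
  · have : ({y | G0.dist x y = G0.diam} : Set (Fin 6)).ncard = 2 := by
      have : ({y | G0.dist x y = G0.diam} : Set (Fin 6)) =
          (Finset.univ.filter fun y => dt x y = 2 : Finset (Fin 6)) := by
        ext y; simp [ds.2, dm]
      rw [this, Set.ncard_coe_finset]
      clear this
      revert x; decide +kernel
    rw [this]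
    unfold pTop phi
    rw [tf, eg]
    norm_num [Finset.sum_insert, Finset.erase_insert_of_ne, Finset.prod_insert, Multiset.count_cons,
      Finset.erase_insert]

end Pool.Agent.Results.MP_87d29b_co.Prism
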